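import Mathlib

/-!
# Subgraphs of cylinders are planar

A graph whose vertices have labels `(a, c)` with `a` an integer and `c` modulo `B`, such that each edge
changes one of the two labels by one, is a subgraph of a cylinder `P × C_B`, so it has a drawing in the
plane without crossings: the vertex goes to the point with the polar coordinates
`(exp a, 2 π c / B)`.
-/

set_option autoImplicit false

namespace Pool.Agent.Q165.BP

open Real

/-- A drawing of `G` in the plane without crossings: vertices are distinct points, every edge is an arc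
(an injective continuous curve) joining its two ends and avoiding all vertices in between, and arcs of
different edges do not meet in between. -/
def IsDrawing {V : Type} (G : SimpleGraph V) (f : V → ℝ × ℝ) (γ : V → V → ℝ → ℝ × ℝ) : Prop :=
  Function.Injective f ∧
  (∀ u v : V, G.Adj u v →
    ContinuousOn (γ u v) (Set.Icc (0:ℝ) 1) ∧ Set.InjOn (γ u v) (Set.Icc (0:ℝ) 1) ∧
    γ u v 0 = f u ∧ γ u v 1 = f v ∧
    ∀ t ∈ Set.Ioo (0:ℝ) 1, ∀ w : V, γ u v t ≠ f w) ∧
  (∀ u v u' v' : V, G.Adj u v → G.Adj u' v' → s(u, v) ≠ s(u', v') →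
    ∀ t ∈ Set.Ioo (0:ℝ) 1, ∀ t' ∈ Set.Ioo (0:ℝ) 1, γ u v t ≠ γ u' v' t')

/-- `G` is planar: it has a drawing in the plane without crossings. -/
def Planar {V : Type} (G : SimpleGraph V) : Prop :=
  ∃ (f : V → ℝ × ℝ) (γ : V → V → ℝ → ℝ × ℝ), IsDrawing G f γ

/-- the point with logarithmic polar coordinates `(t, 2 π θ / B)` -/
noncomputable def pt (B : ℕ) (t θ : ℝ) : ℝ × ℝ :=
  (exp t * cos (2 * π * θ / B), exp t * sin (2 * π * θ / B))

theorem pt_eq {B : ℕ} (hB : 0 < B) {t θ t' θ' : ℝ} (h : pt B t θ = pt B t' θ') :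
    t = t' ∧ ∃ m : ℤ, θ = θ' + m * B := by
  have hB' : (0 : ℝ) < B := by exact_mod_cast hB
  have key0 : ∀ s α : ℝ, Complex.exp ((s : ℂ) + (α : ℂ) * Complex.I) =
      ((exp s * cos α : ℝ) : ℂ) + ((exp s * sin α : ℝ) : ℂ) * Complex.I := by
    intro s α
    rw [Complex.exp_add, Complex.exp_mul_I]
    push_cast
    ring
  have key : ∀ s φ : ℝ, Complex.exp ((s : ℂ) + ((2 * π * φ / B : ℝ) : ℂ) * Complex.I) =
      (((pt B s φ).1 : ℝ) : ℂ) + (((pt B s φ).2 : ℝ) : ℂ) * Complex.I := fun s φ => key0 s _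
  have h1 : Complex.exp ((t : ℂ) + ((2 * π * θ / B : ℝ) : ℂ) * Complex.I) =
      Complex.exp ((t' : ℂ) + ((2 * π * θ' / B : ℝ) : ℂ) * Complex.I) := by
    rw [key, key, h]
  rw [Complex.exp_eq_exp_iff_exists_int] at h1
  obtain ⟨m, hm⟩ := h1
  have hre := congrArg Complex.re hm
  have him := congrArg Complex.im hm
  simp at hre him
  refine ⟨hre, m, ?_⟩
  have hpi := Real.pi_pos
  field_simp at him
  nlinarith [him]

theorem pt_add {B : ℕ} (hB : 0 < B) (t θ : ℝ) : pt B t (θ + B) = pt B t θ := by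
  have hB' : (B : ℝ) ≠ 0 := by exact_mod_cast hB.ne'
  have h : 2 * π * (θ + B) / B = 2 * π * θ / B + 2 * π := by
    field_simp
  simp only [pt, h, Real.cos_add_two_pi, Real.sin_add_two_pi]

section labels

variable {V : Type} (B : ℕ) (a : V → ℤ) (c : V → ZMod B)

/-- the point of the vertex `v` -/
noncomputable def vert (v : V) : ℝ × ℝ := pt B (a v) ((c v).val : ℝ)

/-- the angle along the arc of the edge `u v` -/
noncomputable def ang (u v : V) (t : ℝ) : ℝ :=
  if a u = a v then
    (if c v = c u + 1 then ((c u).val : ℝ) + t else ((c v).val : ℝ) + (1 - t))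
  else ((c u).val : ℝ)

/-- the arc of the edge `u v` -/
noncomputable def arc (u v : V) (t : ℝ) : ℝ × ℝ :=
  pt B ((a u : ℝ) + t * ((a v : ℝ) - a u)) (ang B a c u v t)

/-- each edge changes one of the labels by one -/
def Step (u v : V) : Prop :=
  (a u = a v ∧ (c v = c u + 1 ∨ c u = c v + 1)) ∨ (c u = c v ∧ (a v = a u + 1 ∨ a u = a v + 1))

variable {B a c}

theorem form {u v : V} (h : Step B a c u v) {t : ℝ} (ht : t ∈ Set.Ioo (0:ℝ) 1) :
    ∃ w w' : V, ∃ s ∈ Set.Ioo (0:ℝ) 1, s(u, v) = s(w, w') ∧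
      ((a w' = a w ∧ c w' = c w + 1 ∧ arc B a c u v t = pt B (a w) ((c w).val + s)) ∨
       (c w' = c w ∧ a w' = a w + 1 ∧ arc B a c u v t = pt B (a w + s) (c w).val)) := by
  obtain ⟨h0, h1⟩ := ht
  rcases h with ⟨h2, h3⟩ | ⟨h2, h3⟩
  · by_cases h4 : c v = c u + 1
    · refine ⟨u, v, t, ⟨h0, h1⟩, rfl, Or.inl ⟨h2.symm, h4, ?_⟩⟩
      simp [arc, ang, h2, h4]
    · have h5 : c u = c v + 1 := by tauto
      refine ⟨v, u, 1 - t, ⟨by linarith, by linarith⟩, Sym2.eq_swap, Or.inl ⟨h2, h5, ?_⟩⟩
      simp [arc, ang, h2, h4]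
  · rcases h3 with h3 | h3
    · refine ⟨u, v, t, ⟨h0, h1⟩, rfl, Or.inr ⟨h2.symm, h3, ?_⟩⟩
      have h4 : a u ≠ a v := by omega
      simp only [arc, ang, h4, if_false]
      rw [h3]
      push_cast
      congr 1
      ring
    · refine ⟨v, u, 1 - t, ⟨by linarith, by linarith⟩, Sym2.eq_swap, Or.inr ⟨h2, h3, ?_⟩⟩
      have h4 : a u ≠ a v := by omega
      simp only [arc, ang, h4, if_false]
      rw [h3, h2]
      push_cast
      congr 1
      ring

theorem int_of_lt {s s' : ℝ} (hs : s ∈ Set.Ioo (0:ℝ) 1) (hs' : s' ∈ Set.Ioo (0:ℝ) 1) {k k' : ℤ}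
    (h : (k : ℝ) + s = k' + s') : k = k' := by
  obtain ⟨h1, h2⟩ := hs
  obtain ⟨h3, h4⟩ := hs'
  have h5 : (k : ℝ) < k' + 1 := by linarith
  have h6 : (k' : ℝ) < k + 1 := by linarith
  have h5' : k < k' + 1 := by exact_mod_cast h5
  have h6' : k' < k + 1 := by exact_mod_cast h6
  omega

theorem not_int {s : ℝ} (hs : s ∈ Set.Ioo (0:ℝ) 1) {k k' : ℤ} (h : (k : ℝ) + s = k') : False := by
  obtain ⟨h1, h2⟩ := hs
  have h5 : (k : ℝ) < k' := by linarith
  have h6 : (k' : ℝ) < k + 1 := by linarith
  have h5' : k < k' := by exact_mod_cast h5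
  have h6' : k' < k + 1 := by exact_mod_cast h6
  omega

theorem val_eq [NeZero B] {x y : ZMod B} {m : ℤ} (h : ((x.val : ℤ)) = y.val + m * B) : x = y := by
  have h1 := congrArg (Int.cast : ℤ → ZMod B) h
  push_cast at h1
  rw [ZMod.natCast_zmod_val, ZMod.natCast_zmod_val, ZMod.natCast_self, mul_zero, add_zero] at h1
  exact h1

theorem pt_succ [NeZero B] (hB : 3 ≤ B) (t : ℝ) {x y : ZMod B} (h : y = x + 1) :
    pt B t ((x.val : ℝ) + 1) = pt B t (y.val : ℝ) := by
  have : Fact (1 < B) := ⟨by omega⟩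
  have h1 : y.val = (x.val + 1) % B := by
    rw [h, ZMod.val_add, ZMod.val_one]
  have h2 : x.val < B := ZMod.val_lt x
  rcases Nat.lt_or_ge (x.val + 1) B with h3 | h3
  · rw [Nat.mod_eq_of_lt h3] at h1
    rw [h1]
    push_cast
    rfl
  · have h4 : x.val + 1 = B := by omega
    rw [h4, Nat.mod_self] at h1
    have h5 : ((x.val : ℝ) + 1) = 0 + B := by
      rw [zero_add]
      exact_mod_cast h4
    rw [h5, pt_add (by omega), h1]
    simp

/-- A graph with such labels is planar. -/
theorem planar_of_labels (G : SimpleGraph V) (hB : 3 ≤ B)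
    (hinj : ∀ u v, a u = a v → c u = c v → u = v) (hadj : ∀ u v, G.Adj u v → Step B a c u v) :
    Planar G := by
  have hB0 : 0 < B := by omega
  have : NeZero B := ⟨by omega⟩
  have hBr : (3 : ℝ) ≤ B := by exact_mod_cast hB
  have hvert : ∀ (t θ : ℝ) (w : V), pt B t θ = vert B a c w →
      t = a w ∧ ∃ m : ℤ, θ = (((c w).val : ℤ) + m * B : ℤ) := by
    intro t θ w h
    obtain ⟨h1, m, h2⟩ := pt_eq hB0 h
    exact ⟨h1, m, by push_cast; exact h2⟩
  refine ⟨vert B a c, arc B a c, ?_, ?_, ?_⟩
  · intro u v h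
    obtain ⟨h1, m, h2⟩ := hvert _ _ _ h
    refine hinj u v (by exact_mod_cast h1) (val_eq (m := m) ?_)
    exact_mod_cast h2
  · intro u v huv
    have hs := hadj u v huv
    refine ⟨?_, ?_, ?_, ?_, ?_⟩
    · apply Continuous.continuousOn
      unfold arc ang pt
      split_ifs <;> fun_prop
    · intro t ht t' ht' h
      obtain ⟨h1, m, h2⟩ := pt_eq hB0 h
      rcases hs with ⟨h3, h4⟩ | ⟨h3, h4⟩
      · have h5 : t - t' = m * B ∨ t' - t = m * B := by
          unfold ang at h2
          rw [if_pos h3, if_pos h3] at h2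
          split_ifs at h2
          · left; linarith
          · right; linarith
        have h6 : m = 0 := by
          have h7 : (m : ℝ) * B ≤ 1 := by
            rcases h5 with h5 | h5 <;> linarith [ht.1, ht.2, ht'.1, ht'.2]
          have h8 : -1 ≤ (m : ℝ) * B := by
            rcases h5 with h5 | h5 <;> linarith [ht.1, ht.2, ht'.1, ht'.2]
          have h9 : (m : ℝ) < 1 := by nlinarith
          have h10 : (-1 : ℝ) < m := by nlinarith
          have h9' : m < 1 := by exact_mod_cast h9
          have h10' : -1 < m := by exact_mod_cast h10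
          omega
        rw [h6] at h5
        simp only [Int.cast_zero, zero_mul] at h5
        rcases h5 with h5 | h5 <;> linarith
      · have h5 : ((a v : ℝ) - a u) ≠ 0 := by
          rcases h4 with h4 | h4
          · rw [h4]; push_cast; ring_nf; norm_num
          · rw [h4]; push_cast; ring_nf; norm_num
        have h6 : t * ((a v : ℝ) - a u) = t' * ((a v : ℝ) - a u) := by linarith
        exact mul_right_cancel₀ h5 h6
    · unfold arc vert
      rw [zero_mul, add_zero]
      unfold ang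
      rcases hs with ⟨h3, h4⟩ | ⟨h3, h4⟩
      · rw [if_pos h3]
        by_cases h5 : c v = c u + 1
        · rw [if_pos h5, add_zero]
        · rw [if_neg h5]
          have h6 : c u = c v + 1 := by tauto
          rw [sub_zero]
          exact pt_succ hB _ h6
      · rw [if_neg (by omega)]
    · unfold arc vert
      rw [one_mul, add_sub_cancel]
      unfold ang
      rcases hs with ⟨h3, h4⟩ | ⟨h3, h4⟩
      · rw [if_pos h3]
        by_cases h5 : c v = c u + 1
        · rw [if_pos h5]
          exact pt_succ hB _ h5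
        · rw [if_neg h5, sub_self, add_zero]
      · rw [if_neg (by omega), h3]
    · intro t ht w hw
      obtain ⟨x, x', s, hs', -, h3 | h3⟩ := form hs ht
      · obtain ⟨-, -, h5⟩ := h3
        rw [h5] at hw
        obtain ⟨-, m, h6⟩ := hvert _ _ _ hw
        exact not_int hs' (k := ((c x).val : ℤ)) (k' := ((c w).val : ℤ) + m * B)
          (by push_cast at h6 ⊢; exact h6)
      · obtain ⟨-, -, h5⟩ := h3
        rw [h5] at hw
        obtain ⟨h6, -⟩ := hvert _ _ _ hw
        exact not_int hs' h6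
  · intro u v u' v' huv huv' hne t ht t' ht' h
    apply hne
    obtain ⟨x, x', s, hs, hx, h3⟩ := form (hadj u v huv) ht
    obtain ⟨y, y', r, hr, hy, h4⟩ := form (hadj u' v' huv') ht'
    rw [hx, hy]
    rcases h3 with ⟨h5, h6, h7⟩ | ⟨h5, h6, h7⟩
    · rcases h4 with ⟨h8, h9, h10⟩ | ⟨h8, h9, h10⟩
      · rw [h7, h10] at h
        obtain ⟨h11, m, h12⟩ := pt_eq hB0 h
        have h13 : a x = a y := by exact_mod_cast h11
        have h14 : ((c x).val : ℤ) = ((c y).val : ℤ) + m * B :=
          int_of_lt hs hr (by push_cast; linarith)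
        have h15 : c x = c y := val_eq h14
        have h16 : x = y := hinj _ _ h13 h15
        have h17 : x' = y' := hinj _ _ (by rw [h5, h8, h13]) (by rw [h6, h9, h15])
        rw [h16, h17]
      · exfalso
        rw [h7, h10] at h
        obtain ⟨h11, -⟩ := pt_eq hB0 h
        exact not_int hr h11.symm
    · rcases h4 with ⟨h8, h9, h10⟩ | ⟨h8, h9, h10⟩
      · exfalso
        rw [h7, h10] at h
        obtain ⟨h11, -⟩ := pt_eq hB0 h
        exact not_int hs h11
      · rw [h7, h10] at h
        obtain ⟨h11, m, h12⟩ := pt_eq hB0 h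
        have h13 : a x = a y := int_of_lt hs hr h11
        have h15 : c x = c y := val_eq (m := m) (by exact_mod_cast h12)
        have h16 : x = y := hinj _ _ h13 h15
        have h17 : x' = y' := hinj _ _ (by rw [h6, h9, h13]) (by rw [h5, h8, h15])
        rw [h16, h17]

end labels

end Pool.Agent.Q165.BP
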