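import Pool.Agent.Q165.BP.Cyl

/-!
# Labels

`P_m × C_k` is the union of a Hamiltonian path (a helix) and of a linear forest; `C_n × C_n` is the union
of two Hamiltonian cycles.
-/

set_option autoImplicit false

namespace Pool.Agent.Q165.BP

/-! ### residues -/

theorem succ_mod {k : ℕ} (hk : 0 < k) (x : ℕ) :
    (x % k = k - 1 ∧ (x + 1) % k = 0) ∨ (x % k < k - 1 ∧ (x + 1) % k = x % k + 1) := by
  have h1 : x % k < k := Nat.mod_lt _ hk
  have h2 : (x + 1) % k = (x % k + 1) % k := by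
    rw [Nat.add_mod x 1 k, Nat.add_mod (x % k) 1 k, Nat.mod_mod]
  rcases Nat.lt_or_ge (x % k) (k - 1) with h3 | h3
  · right
    refine ⟨h3, ?_⟩
    rw [h2, Nat.mod_eq_of_lt (by omega)]
  · left
    have h4 : x % k = k - 1 := by omega
    refine ⟨h4, ?_⟩
    rw [h2, h4, show k - 1 + 1 = k by omega, Nat.mod_self]

theorem add_cancel_mod {k x y y' : ℕ} (hy : y < k) (hy' : y' < k) (h : (x + y) % k = (x + y') % k) :
    y = y' := by
  have h1 : x + y ≡ x + y' [MOD k] := h
  have h2 : y ≡ y' [MOD k] := Nat.ModEq.add_left_cancel' x h1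
  exact Nat.ModEq.eq_of_lt_of_lt h2 hy hy'

theorem digits {k q q' r r' : ℤ} (hr : 0 ≤ r) (hr1 : r < k) (hr' : 0 ≤ r') (hr1' : r' < k)
    (h : q * k + r = q' * k + r') : q = q' ∧ r = r' := by
  have h1 : q = q' := by
    rcases lt_trichotomy q q' with h2 | h2 | h2
    · exfalso
      have h3 : q + 1 ≤ q' := h2
      nlinarith
    · exact h2
    · exfalso
      have h3 : q' + 1 ≤ q := h2
      nlinarith
  refine ⟨h1, ?_⟩
  rw [h1] at h
  linarith

/-! ### the cylinder grid -/

/-- the labels along the helix -/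
def lab1 (k i j : ℕ) : ℤ := i * k + ((i + j) % k : ℕ)

/-- the quotient -/
def quo (k i j : ℕ) : ℤ := ((i : ℤ) - ((i + j) % k : ℕ)) / ((k : ℤ) - 1) + 1

/-- the first vertex of the path -/
def sta (k i j : ℕ) : ℤ := ((k : ℤ) - 1) - ((i : ℤ) - ((i + j) % k : ℕ)) % ((k : ℤ) - 1)

/-- the labels along the linear forest -/
def lab2 (m k i j : ℕ) : ℤ := sta k i j * (2 * m + 2) + (i + quo k i j)

theorem lab1_inj {k i j i' j' : ℕ} (hk : 0 < k) (hj : j < k) (hj' : j' < k)
    (h : lab1 k i j = lab1 k i' j') : i = i' ∧ j = j' := by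
  unfold lab1 at h
  have h1 : (i + j) % k < k := Nat.mod_lt _ hk
  have h2 : (i' + j') % k < k := Nat.mod_lt _ hk
  obtain ⟨h3, h4⟩ := digits (k := k) (by positivity) (by exact_mod_cast h1) (by positivity)
    (by exact_mod_cast h2) h
  have h5 : i = i' := by exact_mod_cast h3
  refine ⟨h5, ?_⟩
  subst h5
  exact add_cancel_mod hj hj' (by exact_mod_cast h4)

theorem sta_quo {k i j : ℕ} (hk : 3 ≤ k) :
    sta k i j + (i + quo k i j) = quo k i j * k + ((i + j) % k : ℕ) := by
  have h := Int.mul_ediv_add_emod ((i : ℤ) - ((i + j) % k : ℕ)) ((k : ℤ) - 1)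
  unfold sta quo
  set t : ℤ := (i : ℤ) - ((i + j) % k : ℕ) with ht
  linear_combination (-h) - ht

theorem sta_bounds {k i j : ℕ} (hk : 3 ≤ k) : 1 ≤ sta k i j ∧ sta k i j ≤ (k : ℤ) - 1 := by
  unfold sta
  have h1 := Int.emod_nonneg ((i : ℤ) - ((i + j) % k : ℕ)) (b := (k : ℤ) - 1) (by omega)
  have h2 := Int.emod_lt_of_pos ((i : ℤ) - ((i + j) % k : ℕ)) (b := (k : ℤ) - 1) (by omega)
  omega

theorem quo_bounds {m k i j : ℕ} (hk : 3 ≤ k) (hi : i < m) :
    0 ≤ quo k i j ∧ quo k i j ≤ m := by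
  unfold quo
  have h1 : (i + j) % k < k := Nat.mod_lt _ (by omega)
  have h2 : ((i + j) % k : ℕ) ≤ (k : ℤ) - 1 := by omega
  have hK : (0 : ℤ) < (k : ℤ) - 1 := by omega
  constructor
  · have : -1 ≤ ((i : ℤ) - ((i + j) % k : ℕ)) / ((k : ℤ) - 1) := by
      rw [Int.le_ediv_iff_mul_le hK]
      omega
    omega
  · have : ((i : ℤ) - ((i + j) % k : ℕ)) / ((k : ℤ) - 1) ≤ i := by
      apply Int.ediv_le_of_le_mul hK
      have h3 : (i : ℤ) ≤ i * ((k : ℤ) - 1) := by nlinarith [show (1 : ℤ) ≤ (k : ℤ) - 1 by omega]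
      omega
    omega

theorem lab2_inj {m k i j i' j' : ℕ} (hk : 3 ≤ k) (hj : j < k) (hj' : j' < k) (hi : i < m)
    (hi' : i' < m) (h : lab2 m k i j = lab2 m k i' j') : i = i' ∧ j = j' := by
  unfold lab2 at h
  obtain ⟨b1, b2⟩ := quo_bounds (j := j) hk hi
  obtain ⟨b3, b4⟩ := quo_bounds (j := j') hk hi'
  obtain ⟨h1, h2⟩ := digits (by omega) (by omega) (by omega) (by omega) h
  have h3 := sta_quo (i := i) (j := j) hk
  have h4 := sta_quo (i := i') (j := j') hk
  rw [h1, h2, h4] at h3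
  have h5 : (i + j) % k < k := Nat.mod_lt _ (by omega)
  have h6 : (i' + j') % k < k := Nat.mod_lt _ (by omega)
  obtain ⟨h7, h8⟩ := digits (k := k) (by positivity) (by exact_mod_cast h6) (by positivity)
    (by exact_mod_cast h5) h3
  have h9 : i = i' := by omega
  refine ⟨h9, ?_⟩
  subst h9
  exact add_cancel_mod hj hj' (by exact_mod_cast h8.symm)

/-- the steps up -/
theorem step_up {m k : ℕ} (hk : 3 ≤ k) (i j : ℕ) :
    lab1 k (i + 1) j = lab1 k i j + 1 ∨ lab2 m k (i + 1) j = lab2 m k i j + 1 := by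
  have h0 : i + 1 + j = (i + j) + 1 := by ring
  rcases succ_mod (k := k) (by omega) (i + j) with ⟨h1, h2⟩ | ⟨h1, h2⟩
  · left
    unfold lab1
    rw [h0, h1, h2]
    push_cast [Nat.cast_sub (show 1 ≤ k by omega)]
    ring
  · right
    unfold lab2 sta quo
    rw [h0, h2]
    have h3 : ((i + 1 : ℕ) : ℤ) - (((i + j) % k + 1 : ℕ) : ℤ) = (i : ℤ) - ((i + j) % k : ℕ) := by
      push_cast
      ring
    rw [h3]
    push_cast
    ring

/-- the steps to the right -/
theorem step_right {m k : ℕ} (hk : 3 ≤ k) (i j : ℕ) :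
    lab1 k i ((j + 1) % k) = lab1 k i j + 1 ∨ lab2 m k i ((j + 1) % k) = lab2 m k i j + 1 := by
  have h0 : (i + (j + 1) % k) % k = ((i + j) + 1) % k := by
    rw [Nat.add_mod_mod]
    ring_nf
  rcases succ_mod (k := k) (by omega) (i + j) with ⟨h1, h2⟩ | ⟨h1, h2⟩
  · right
    unfold lab2 sta quo
    rw [h0, h1, h2]
    have hK : (k : ℤ) - 1 ≠ 0 := by omega
    have h3 : (i : ℤ) - ((0 : ℕ) : ℤ) = ((i : ℤ) - ((k - 1 : ℕ) : ℤ)) + ((k : ℤ) - 1) := by
      push_cast [Nat.cast_sub (show 1 ≤ k by omega)]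
      ring
    rw [h3, Int.add_emod_right, Int.add_ediv_of_dvd_right (dvd_refl _), Int.ediv_self hK]
    ring
  · left
    unfold lab1
    rw [h0, h2]
    push_cast
    ring

/-! ### the torus grid -/

/-- the labels along the Hamiltonian cycle, as natural numbers -/
def tor (n x y : ℕ) : ℕ := n * (if (x + y) % n = 0 then x else (x + (n - 1)) % n) + (x + y) % n

theorem tor_lt {n x y : ℕ} (hn : 3 ≤ n) (hx : x < n) : tor n x y < n * n := by
  unfold tor
  have h1 : (x + y) % n < n := Nat.mod_lt _ (by omega)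
  have h2 : (x + (n - 1)) % n < n := Nat.mod_lt _ (by omega)
  split_ifs <;> nlinarith

theorem tor_inj {n x y x' y' : ℕ} (hn : 3 ≤ n) (hx : x < n) (hy : y < n) (hx' : x' < n)
    (hy' : y' < n) (h : tor n x y = tor n x' y') : x = x' ∧ y = y' := by
  unfold tor at h
  have h1 : (x + y) % n < n := Nat.mod_lt _ (by omega)
  have h2 : (x' + y') % n < n := Nat.mod_lt _ (by omega)
  set q := (if (x + y) % n = 0 then x else (x + (n - 1)) % n) with hq
  set q' := (if (x' + y') % n = 0 then x' else (x' + (n - 1)) % n) with hq'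
  have h3 : (q : ℤ) * n + ((x + y) % n : ℕ) = (q' : ℤ) * n + ((x' + y') % n : ℕ) := by
    have := congrArg (Nat.cast : ℕ → ℤ) h
    push_cast at this ⊢
    linarith
  obtain ⟨h4, h5⟩ := digits (k := n) (by positivity) (by exact_mod_cast h1) (by positivity)
    (by exact_mod_cast h2) h3
  have h4' : q = q' := by exact_mod_cast h4
  have h5' : (x + y) % n = (x' + y') % n := by exact_mod_cast h5
  have h6 : x = x' := by
    rw [hq, hq', h5'] at h4'
    split_ifs at h4'
    · exact h4'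
    · rw [add_comm x, add_comm x'] at h4'
      exact add_cancel_mod hx hx' h4'
  refine ⟨h6, ?_⟩
  subst h6
  exact add_cancel_mod hy hy' h5'

/-- the step in the first coordinate -/
theorem tor_first {n x y : ℕ} (hn : 3 ≤ n) (hx : x < n) (h : (x + y) % n = 0) :
    tor n ((x + 1) % n) y = tor n x y + 1 := by
  have h1 : ((x + 1) % n + y) % n = 1 := by
    rw [Nat.mod_add_mod, show x + 1 + y = (x + y) + 1 by ring]
    rcases succ_mod (k := n) (by omega) (x + y) with ⟨h2, h3⟩ | ⟨h2, h3⟩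
    · omega
    · rw [h3, h]
  have h4 : ((x + 1) % n + (n - 1)) % n = x := by
    rw [Nat.mod_add_mod, show x + 1 + (n - 1) = x + n by omega, Nat.add_mod_right,
      Nat.mod_eq_of_lt hx]
  unfold tor
  rw [h1, h4, h]
  simp

/-- the step in the second coordinate -/
theorem tor_second {n x y : ℕ} (hn : 3 ≤ n) (hx : x < n) (h : (x + y) % n ≠ 0) :
    tor n x ((y + 1) % n) % (n * n) = (tor n x y + 1) % (n * n) := by
  have h1 : (x + (y + 1) % n) % n = ((x + y) + 1) % n := by
    rw [Nat.add_mod_mod]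
    ring_nf
  unfold tor
  rw [h1, if_neg h]
  rcases succ_mod (k := n) (by omega) (x + y) with ⟨h2, h3⟩ | ⟨h2, h3⟩
  · rw [h3, h2, if_pos rfl]
    rcases Nat.eq_zero_or_pos x with h4 | h4
    · subst h4
      rw [zero_add, Nat.mod_eq_of_lt (show n - 1 < n by omega)]
      have h5 : n * (n - 1) + (n - 1) + 1 = n * n := by
        obtain ⟨k, rfl⟩ : ∃ k, n = k + 1 := ⟨n - 1, by omega⟩
        simp only [Nat.add_sub_cancel]
        ring
      rw [h5]
      simp
    · have h5 : (x + (n - 1)) % n = x - 1 := by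
        rw [show x + (n - 1) = (x - 1) + n by omega, Nat.add_mod_right,
          Nat.mod_eq_of_lt (by omega)]
      rw [h5]
      have h6 : n * (x - 1) + (n - 1) + 1 = n * x + 0 := by
        obtain ⟨k, rfl⟩ : ∃ k, x = k + 1 := ⟨x - 1, by omega⟩
        simp only [Nat.add_sub_cancel]
        have : n - 1 + 1 = n := by omega
        rw [add_assoc, this]
        ring
      rw [h6]
  · rw [h3, if_neg (by omega)]
    rfl

end Pool.Agent.Q165.BP
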